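import Pool.Agent.Lib.MP_a7c6c3_lc.Main

/-!
The complexity profile of a tuple of strings cannot always be halved up to a logarithmic error.
The machine maps strings to strings, tuples are coded by an arbitrary computable encoding.
-/

set_option autoImplicit false

namespace Pool.Agent.Lib.MP_a7c6c3_lc.Variants.NoHalving

open Pool.Agent.Lib.MP_a7c6c3_lc

/-- An optimal machine for plain programs: a partial computable map from strings to strings that
simulates every other one with a constant overhead in the length of programs. -/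
def Optimal (U : List Bool →. List Bool) : Prop :=
  Partrec U ∧ ∀ φ : List Bool →. List Bool, Partrec φ →
    ∃ d : ℕ, ∀ p x : List Bool, x ∈ φ p → ∃ q : List Bool, x ∈ U q ∧ q.length ≤ p.length + d

/-- Plain Kolmogorov complexity: the length of a shortest program for `x`. -/
noncomputable def plainC (U : List Bool →. List Bool) (x : List Bool) : ℕ :=
  sInf {m : ℕ | ∃ p : List Bool, x ∈ U p ∧ p.length = m}

theorem plain_spec {U : List Bool →. List Bool} (hU : Optimal U) (x : List Bool) :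
    ∃ p, x ∈ U p ∧ p.length = plainC U x := by
  obtain ⟨c, hc⟩ := hU.2 (fun _ => Part.some x) (Computable.const x).partrec
  obtain ⟨q, hq, -⟩ := hc [] x (Part.mem_some x)
  have hne : {m : ℕ | ∃ q : List Bool, x ∈ U q ∧ q.length = m}.Nonempty := ⟨_, q, hq, rfl⟩
  exact Nat.sInf_mem hne

theorem sub_eq_sort {k : ℕ} (S : Finset (Fin k)) (a : Fin k → List Bool) :
    sub S a = (S.sort (· ≤ ·)).map a := by
  unfold sub
  congr 1
  refine List.Perm.eq_of_pairwise (le := (· ≤ ·)) (fun x y _ _ => le_antisymm)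
    ((List.pairwise_le_finRange k).filter _) (Finset.pairwise_sort S _) ?_
  refine (List.perm_ext_iff_of_nodup ((List.nodup_finRange k).filter _) (S.sort_nodup _)).2 ?_
  intro i
  simp

theorem compare {U : List Bool →. List Bool} (hU : Optimal U)
    {enc : List (List Bool) → List Bool} (he : Computable enc)
    (hi : ∀ x y, x.length = y.length → enc x = enc y → x = y)
    {W : List Bool →. List (List Bool)} (hW : Opt W) (k : ℕ) :
    ∃ d : ℕ, ∀ x : List (List Bool), x.length ≤ k →
      plainC U (enc x) ≤ cx W x + d ∧ cx W x ≤ plainC U (enc x) + d := by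
  obtain ⟨d1, h1⟩ := hU.2 (fun p => (W p).map enc) (hW.1.map (he.comp Computable.snd).to₂)
  obtain ⟨ψ, hψ, hm⟩ := KB.exists_inv (fun x : List (List Bool) => (enc x, x.length))
    (he.pair Computable.list_length) fun x y h =>
      hi x y (congrArg Prod.snd h) (congrArg Prod.fst h)
  have h2 := fun m : ℕ => hW.2 (fun p => (U p).bind fun y => ψ (y, m))
    (hU.1.bind (hψ.comp (Computable.snd.pair (Computable.const m))).to₂)
  choose d2 h2 using h2
  refine ⟨d1 + ∑ m ∈ Finset.range (k + 1), d2 m, fun x hx => ⟨?_, ?_⟩⟩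
  · obtain ⟨p, hp, hl⟩ := cx_spec hW x
    obtain ⟨q, hq, h3⟩ := h1 p (enc x) (Part.mem_map enc hp)
    have h4 : plainC U (enc x) ≤ q.length := Nat.sInf_le ⟨q, hq, rfl⟩
    omega
  · obtain ⟨p, hp, hl⟩ := plain_spec hU (enc x)
    obtain ⟨q, hq, h3⟩ := h2 x.length p x (Part.mem_bind hp (hm x))
    have h4 := cx_le_of_mem hq
    have h5 : d2 x.length ≤ ∑ m ∈ Finset.range (k + 1), d2 m :=
      Finset.single_le_sum (fun _ _ => Nat.zero_le _) (Finset.mem_range.2 (by omega))
    omega

theorem base : ∃ k : ℕ, 1 ≤ k ∧ ∀ U : List Bool →. List Bool, Optimal U →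
    ∀ enc : List (List Bool) → List Bool, Computable enc →
      (∀ x y, x.length = y.length → enc x = enc y → x = y) →
      ∀ c : ℝ, ∃ n : ℕ, 2 ≤ n ∧ ∃ a : Fin k → List Bool, (∀ i, (a i).length ≤ n) ∧
        ∀ a' : Fin k → List Bool, ∃ S : Finset (Fin k), S.Nonempty ∧
          c * Real.log n < |(plainC U (enc ((S.sort (· ≤ ·)).map a')) : ℝ)
            - (plainC U (enc ((S.sort (· ≤ ·)).map a)) : ℝ) / 2| := by
  by_contra h
  refine not_halving fun k W hW => ?_
  rcases Nat.eq_zero_or_pos k with rfl | hk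
  · exact ⟨0, fun n a _ => ⟨a, fun S ⟨i, _⟩ => i.elim0⟩⟩
  push Not at h
  obtain ⟨U, hU, enc, he, hi, c, hc⟩ := h k hk
  obtain ⟨d, hd⟩ := compare hU he hi hW k
  refine ⟨c + 3 * d, fun n a ha => ?_⟩
  obtain ⟨a', h1⟩ := hc (n + 2) (by omega) a fun i => (ha i).trans (by omega)
  refine ⟨a', fun S hS => ?_⟩
  have h2 := h1 S hS
  rw [← sub_eq_sort, ← sub_eq_sort] at h2
  have hl : ∀ b : Fin k → List Bool, (sub S b).length ≤ k := fun b => by
    rw [sub, List.length_map]
    exact (List.length_filter_le _ _).trans_eq List.length_finRange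
  obtain ⟨h3, h4⟩ := hd _ (hl a)
  obtain ⟨h5, h6⟩ := hd _ (hl a')
  have h7 := KMain.half_le_log (Nat.cast_nonneg (α := ℝ) n)
  have h8 : (0 : ℝ) ≤ d := Nat.cast_nonneg d
  have h9 := mul_le_mul_of_nonneg_left h7 h8
  push_cast at h2
  rw [abs_le] at h2 ⊢
  have h3' : (plainC U (enc (sub S a)) : ℝ) ≤ cx W (sub S a) + d := by exact_mod_cast h3
  have h4' : (cx W (sub S a) : ℝ) ≤ plainC U (enc (sub S a)) + d := by exact_mod_cast h4
  have h5' : (plainC U (enc (sub S a')) : ℝ) ≤ cx W (sub S a') + d := by exact_mod_cast h5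
  have h6' : (cx W (sub S a') : ℝ) ≤ plainC U (enc (sub S a')) + d := by exact_mod_cast h6
  constructor <;> nlinarith [h2.1, h2.2]

/-- Optimal machines exist. -/
theorem exists_optimal : ∃ U, Optimal U := by
  obtain ⟨W, hW⟩ := exists_opt
  have h1 : Computable fun r : List Bool × List (List Bool) => r.2.headD [] := by fun_prop
  have h2 : Computable fun r : List Bool × List Bool => [r.2] := by fun_prop
  refine ⟨fun p => (W p).map fun x => x.headD [], hW.1.map h1.to₂, fun φ hφ => ?_⟩
  obtain ⟨d, hd⟩ := hW.2 (fun p => (φ p).map fun s => [s]) (hφ.map h2.to₂)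
  refine ⟨d, fun p x hx => ?_⟩
  obtain ⟨q, hq, hl⟩ := hd p [x] (Part.mem_map (fun s => [s]) hx)
  exact ⟨q, Part.mem_map (fun x => x.headD []) hq, hl⟩

theorem result : ∃ k₀ : ℕ, ∀ k : ℕ, k₀ ≤ k → ∀ U : List Bool →. List Bool, Optimal U →
    ∀ enc : List (List Bool) → List Bool, Computable enc →
      (∀ x y, x.length = y.length → enc x = enc y → x = y) →
      ∀ c : ℝ, ∃ n : ℕ, 2 ≤ n ∧ ∃ a : Fin k → List Bool, (∀ i, (a i).length ≤ n) ∧
        ∀ a' : Fin k → List Bool, ∃ S : Finset (Fin k), S.Nonempty ∧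
          c * Real.log n < |(plainC U (enc ((S.sort (· ≤ ·)).map a')) : ℝ)
            - (plainC U (enc ((S.sort (· ≤ ·)).map a)) : ℝ) / 2| := by
  obtain ⟨k₀, -, h⟩ := base
  refine ⟨k₀, fun k hk U hU enc he hi c => ?_⟩
  obtain ⟨n, hn, a, ha, h1⟩ := h U hU enc he hi c
  refine ⟨n, hn, fun i => if h : i.1 < k₀ then a ⟨i.1, h⟩ else [], fun i => ?_, fun a' => ?_⟩
  · by_cases h2 : i.1 < k₀
    · simpa [h2] using ha _
    · simp [h2]
  · obtain ⟨S, hS, h2⟩ := h1 fun i => a' (Fin.castLE hk i)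
    refine ⟨S.map (Fin.castLEEmb hk), hS.map, ?_⟩
    have h4 : (S.sort (· ≤ ·)).map (Fin.castLEEmb hk) = (S.map (Fin.castLEEmb hk)).sort (· ≤ ·) :=
      Finset.map_sort _ _ _ _ fun _ _ _ _ => Iff.rfl
    rw [← h4, List.map_map, List.map_map]
    have h3 : (fun i : Fin k => if h : i.1 < k₀ then a ⟨i.1, h⟩ else []) ∘ Fin.castLEEmb hk = a :=
      funext fun i => by simp
    rw [h3]
    exact h2

end Pool.Agent.Lib.MP_a7c6c3_lc.Variants.NoHalving
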